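import Pool.Agent.Helper64.Cal.At

/-!
# Part At2: lifting of compact operators, approximable operators
-/

set_option autoImplicit false

open scoped ENNReal
open Filter Topology

namespace Pool.Agent.Helper64.Cal

namespace Sys

variable (S : Sys)

/-- approximable operators are small on flexible RIS vectors -/
theorem At2_flex {Θ : S.X →L[ℂ] S.X} (h : S.Appr Θ) {C : ℝ} (hC : 0 ≤ C) {ε : ℝ}
    (hε : 0 < ε) : ∃ J, ∀ x : X00, RF S C J x → ‖Θ (S.j x)‖ ≤ ε := by
  have hC1 : 0 < C + 1 := by linarith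
  obtain ⟨N, K', R', hK', hR', hΘ⟩ := h (ε / (2 * (C + 1))) (by positivity)
  obtain ⟨J, hJ⟩ := wn S R' hR' hC (half_pos hε)
  refine ⟨max N J, fun x hx => ?_⟩
  have hRT : RT S C J x := hx.1.mono le_rfl (le_max_right _ _)
  have h1 : ‖R' (S.j x)‖ ≤ ε / 2 := hJ x hRT
  have h2 : S.kop N K' (S.j x) = 0 := by
    rw [S.kop_j hK' x]
    have hz : kop0 N K' hK' x = 0 := by
      apply Subtype.ext
      show act K' (hi N (x : E)) = 0
      have e1 : hi N (x : E) = x := hi_eq_self (fun k hk => hx.1.ge k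
        (lt_of_lt_of_le hk (le_max_left _ _)))
      have e2 : K' = K' ∘L Q (max N J) := ((hK'.mono (le_max_left N J)).comp_Q).symm
      rw [e1, e2, ← act_act, hx.2, map_zero]
    rw [hz, map_zero]
  have h3 : ‖S.j x‖ ≤ C := S.norm_j_le hC (fun k => hx.1.nb k)
  have h4 : Θ (S.j x) = (Θ - (S.kop N K' + R')) (S.j x) + (S.kop N K' (S.j x) + R' (S.j x)) := by
    simp
  rw [h4, h2, zero_add]
  have h5 : ‖(Θ - (S.kop N K' + R')) (S.j x)‖ ≤ ε / (2 * (C + 1)) * C :=
    (ContinuousLinearMap.le_opNorm _ _).trans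
      (mul_le_mul hΘ h3 (norm_nonneg _) (by positivity))
  have h6 : ε / (2 * (C + 1)) * C ≤ ε / 2 := by
    rw [div_mul_eq_mul_div, div_le_div_iff₀ (by positivity) (by norm_num)]
    nlinarith
  calc ‖(Θ - (S.kop N K' + R')) (S.j x) + R' (S.j x)‖
      ≤ ‖(Θ - (S.kop N K' + R')) (S.j x)‖ + ‖R' (S.j x)‖ := norm_add_le _ _
    _ ≤ ε / 2 + ε / 2 := add_le_add (h5.trans h6) h1
    _ = ε := by ring

/-- the product of two operators of the form `kop` -/
lemma At2_kop_kop {N N' : ℕ} {K K' : V →L[ℂ] V} (hK : IsM N K) (hK' : IsM N' K') :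
    IsCompactOperator (S.kop N K ∘L S.kop N' K' - S.kop (max N N') (K ∘L K')) := by
  set M := max N N' with hM
  have h1 : IsCompactOperator (S.kop N K - S.kop M K) := S.kop_level hK (le_max_left _ _)
  have h2 : IsCompactOperator (S.kop N' K' - S.kop M K') := S.kop_level hK' (le_max_right _ _)
  have h3 : S.kop M K ∘L S.kop M K' = S.kop M (K ∘L K') :=
    S.kop_comp (hK.mono (le_max_left _ _)) (hK'.mono (le_max_right _ _))
  have h4 : S.kop N K ∘L S.kop N' K' - S.kop M (K ∘L K') =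
      (S.kop N K - S.kop M K) ∘L S.kop N' K' + S.kop M K ∘L (S.kop N' K' - S.kop M K') := by
    rw [← h3]
    ext1 u
    simp
  rw [h4]
  have h5 : IsCompactOperator ((S.kop N K - S.kop M K) ∘L S.kop N' K') :=
    h1.comp_clm (S.kop N' K')
  have h6 : IsCompactOperator (S.kop M K ∘L (S.kop N' K' - S.kop M K')) :=
    h2.clm_comp (S.kop M K)
  exact h5.add h6

/-- the remainder term -/
lemma At2_rem {N N' : ℕ} {K K' : V →L[ℂ] V} {R R' : S.X →L[ℂ] S.X}
    (hK : IsM N K) (hK' : IsM N' K') (hR : IsCompactOperator R) (hR' : IsCompactOperator R') :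
    ∃ D : S.X →L[ℂ] S.X, IsCompactOperator D ∧
      (S.kop N K + R) * (S.kop N' K' + R') = S.kop (max N N') (K ∘L K') + D := by
  have a1 := S.At2_kop_kop hK hK'
  have a2 : IsCompactOperator (S.kop N K ∘L R') := hR'.clm_comp (S.kop N K)
  have a3 : IsCompactOperator (R ∘L (S.kop N' K' + R')) := hR.comp_clm (S.kop N' K' + R')
  generalize S.kop (max N N') (K ∘L K') = U at *
  generalize S.kop N K = B at *
  generalize S.kop N' K' = B' at *
  refine ⟨(B ∘L B' - U) + (B ∘L R' + R ∘L (B' + R')), a1.add (a2.add a3), ?_⟩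
  refine ContinuousLinearMap.ext (fun u => ?_)
  show B (B' u + R' u) + R (B' u + R' u) = U u + ((B (B' u) - U u) + (B (R' u) + R (B' u + R' u)))
  rw [map_add B]
  abel

/-- multiplicativity on the approximants -/
lemma At2_mul_approx {N N' : ℕ} {K K' : V →L[ℂ] V} {R R' : S.X →L[ℂ] S.X}
    (hK : IsM N K) (hK' : IsM N' K') (hR : IsCompactOperator R) (hR' : IsCompactOperator R') :
    S.A ((S.kop N K + R) * (S.kop N' K' + R')) = S.A (S.kop N K + R) * S.A (S.kop N' K' + R') := by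
  obtain ⟨D, hD, hE⟩ := S.At2_rem hK hK' hR hR'
  have hM : IsM (max N N') (K ∘L K') :=
    (hK.mono (le_max_left _ _)).comp (hK'.mono (le_max_right _ _))
  have e1 : S.A ((S.kop N K + R) * (S.kop N' K' + R')) = Shd ∘L (K ∘L K') ∘L Sh := by
    rw [hE, map_add, S.A_compact hD, add_zero, S.A_kop hM]
  have e2 : S.A (S.kop N K + R) = Shd ∘L K ∘L Sh := by
    rw [map_add, S.A_compact hR, add_zero, S.A_kop hK]
  have e3 : S.A (S.kop N' K' + R') = Shd ∘L K' ∘L Sh := by
    rw [map_add, S.A_compact hR', add_zero, S.A_kop hK']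
  rw [e1, e2, e3]
  refine ContinuousLinearMap.ext (fun u => ?_)
  show Shd (K (K' (Sh u))) = Shd (K (Sh (Shd (K' (Sh u)))))
  rw [Sh_Shd_of_isM hK']

end Sys

lemma At2_abs {R R' : Type*} [NormedRing R] [NormedRing R'] (A : R → R') (hA : Continuous A)
    (a b : R) (h : ∀ ε : ℝ, 0 < ε → ∃ a' b' : R, ‖a - a'‖ ≤ ε ∧ ‖b - b'‖ ≤ ε ∧
      A (a' * b') = A a' * A b') : A (a * b) = A a * A b := by
  have h' : ∀ i : ℕ, ∃ a' b' : R, ‖a - a'‖ ≤ 1 / ((i : ℝ) + 1) ∧ ‖b - b'‖ ≤ 1 / ((i : ℝ) + 1) ∧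
      A (a' * b') = A a' * A b' := fun i => h _ (by positivity)
  choose u v hu hv huv using h'
  have hu' : Tendsto u atTop (𝓝 a) := by
    rw [tendsto_iff_norm_sub_tendsto_zero]
    refine squeeze_zero (fun i => norm_nonneg _) (fun i => ?_)
      tendsto_one_div_add_atTop_nhds_zero_nat
    rw [norm_sub_rev]
    exact hu i
  have hv' : Tendsto v atTop (𝓝 b) := by
    rw [tendsto_iff_norm_sub_tendsto_zero]
    refine squeeze_zero (fun i => norm_nonneg _) (fun i => ?_)
      tendsto_one_div_add_atTop_nhds_zero_nat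
    rw [norm_sub_rev]
    exact hv i
  have h1 : Tendsto (fun i => A (u i * v i)) atTop (𝓝 (A (a * b))) :=
    (hA.tendsto _).comp (hu'.mul hv')
  have h2 : Tendsto (fun i => A (u i) * A (v i)) atTop (𝓝 (A a * A b)) :=
    ((hA.tendsto _).comp hu').mul ((hA.tendsto _).comp hv')
  have h3 : (fun i => A (u i * v i)) = fun i => A (u i) * A (v i) := by
    funext i
    exact huv i
  rw [h3] at h1
  exact tendsto_nhds_unique h1 h2

/-- limits of fast sequences -/
lemma At2_lim {W : Type*} [NormedAddCommGroup W] [CompleteSpace W] (P : ℕ → W)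
    (c : ℝ) (h : ∀ i, ‖P (i + 1) - P i‖ ≤ c * (1 / 2) ^ i) :
    ∃ a : W, Tendsto P atTop (𝓝 a) := by
  have hc : CauchySeq P := by
    refine cauchySeq_of_le_geometric (1 / 2 : ℝ) c (by norm_num) (fun i => ?_)
    rw [dist_comm, dist_eq_norm]
    exact h i
  exact cauchySeq_tendsto_of_complete hc

namespace Sys

variable (S : Sys)

/-- the symbol is multiplicative on approximable operators -/
theorem At2_mul {Θ Θ' : S.X →L[ℂ] S.X} (h : S.Appr Θ) (h' : S.Appr Θ') :
    S.A (Θ * Θ') = S.A Θ * S.A Θ' := by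
  refine At2_abs (fun T => S.A T) S.A.continuous Θ Θ' (fun ε hε => ?_)
  obtain ⟨N, K, R, hK, hR, hT⟩ := h ε hε
  obtain ⟨N', K', R', hK', hR', hT'⟩ := h' ε hε
  exact ⟨_, _, hT, hT', S.At2_mul_approx hK hK' hR hR'⟩

/-- the sequence of truncated levels -/
lemma At2_levels (K : V →L[ℂ] V) (hK : IsCompactOperator K) :
    ∃ M : ℕ → ℕ, Monotone M ∧ ∀ i, ‖K - tr (M i) ∘L K ∘L tr (M i)‖ ≤ (1 / 2 : ℝ) ^ i := by
  have h : ∀ i : ℕ, ∃ N0, ∀ N, N0 ≤ N → ‖K - tr N ∘L K ∘L tr N‖ ≤ (1 / 2 : ℝ) ^ i :=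
    fun i => compact_trunc K hK (by positivity)
  choose N0 hN0 using h
  refine ⟨fun i => ∑ k ∈ Finset.range (i + 1), N0 k, ?_, fun i => ?_⟩
  · refine monotone_nat_of_le_succ (fun i => ?_)
    rw [Finset.sum_range_succ _ (i + 1)]
    exact Nat.le_add_right _ _
  · exact hN0 i _ (Finset.single_le_sum (fun _ _ => Nat.zero_le _) (Finset.self_mem_range_succ i))

/-- conjugation by the shifts -/
noncomputable def cj (K : V →L[ℂ] V) : V →L[ℂ] V := Sh ∘L K ∘L Shd

lemma cj_sub (K L : V →L[ℂ] V) : cj K - cj L = cj (K - L) := by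
  refine ContinuousLinearMap.ext (fun u => ?_)
  show Sh (K (Shd u)) - Sh (L (Shd u)) = Sh (K (Shd u) - L (Shd u))
  rw [map_sub]

lemma norm_cj_le (K : V →L[ℂ] V) : ‖cj K‖ ≤ ‖K‖ := by
  refine ContinuousLinearMap.opNorm_le_bound _ (norm_nonneg _) (fun u => ?_)
  show ‖Sh (K (Shd u))‖ ≤ ‖K‖ * ‖u‖
  rw [norm_Sh]
  exact (K.le_opNorm _).trans (mul_le_mul_of_nonneg_left (norm_Shd_le u) (norm_nonneg _))

/-- lifting of compact operators -/
theorem At2_lift (K : V →L[ℂ] V) (hK : IsCompactOperator K) :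
    ∃ Θ : S.X →L[ℂ] S.X, S.A Θ = K ∧ S.Appr Θ := by
  obtain ⟨M, hM, hKM⟩ := At2_levels K hK
  set L : ℕ → V →L[ℂ] V := fun i => cj (tr (M i) ∘L K ∘L tr (M i)) with hL
  have hLM : ∀ i, IsM (M i + 1) (L i) := fun i => isM_conj K (M i)
  have hLd : ∀ i, ‖L (i + 1) - L i‖ ≤ 2 * (1 / 2 : ℝ) ^ i := by
    intro i
    rw [hL]
    show ‖cj (tr (M (i + 1)) ∘L K ∘L tr (M (i + 1))) - cj (tr (M i) ∘L K ∘L tr (M i))‖ ≤ _
    rw [cj_sub]
    refine (norm_cj_le _).trans ?_
    have e : tr (M (i + 1)) ∘L K ∘L tr (M (i + 1)) - tr (M i) ∘L K ∘L tr (M i) =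
        (K - tr (M i) ∘L K ∘L tr (M i)) - (K - tr (M (i + 1)) ∘L K ∘L tr (M (i + 1))) := by abel
    rw [e]
    refine (norm_sub_le _ _).trans ?_
    have h1 := hKM i
    have h2 := hKM (i + 1)
    have h3 : (1 / 2 : ℝ) ^ (i + 1) ≤ (1 / 2) ^ i := by
      rw [pow_succ]
      have : (0 : ℝ) ≤ (1 / 2) ^ i := by positivity
      linarith
    linarith
  let P : ℕ → (S.X →L[ℂ] S.X) := fun i => S.kop (M 0 + 1) (L 0) +
    ∑ k ∈ Finset.range i, S.kop (M (k + 1) + 1) (L (k + 1) - L k)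
  have hP : ∀ i, P (i + 1) - P i = S.kop (M (i + 1) + 1) (L (i + 1) - L i) := by
    intro i
    show (S.kop (M 0 + 1) (L 0) +
      ∑ k ∈ Finset.range (i + 1), S.kop (M (k + 1) + 1) (L (k + 1) - L k)) -
      (S.kop (M 0 + 1) (L 0) + ∑ k ∈ Finset.range i, S.kop (M (k + 1) + 1) (L (k + 1) - L k)) = _
    rw [Finset.sum_range_succ]
    abel
  have hPn : ∀ i, ‖P (i + 1) - P i‖ ≤ 12 * (1 / 2 : ℝ) ^ i := by
    intro i
    rw [hP]
    refine (S.norm_kop_le _ _).trans ?_
    have := hLd i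
    linarith
  have hcomp : ∀ i, IsCompactOperator (P i - S.kop (M i + 1) (L i)) := by
    intro i
    induction i with
    | zero =>
      have : P 0 - S.kop (M 0 + 1) (L 0) = 0 := by
        show S.kop (M 0 + 1) (L 0) + _ - S.kop (M 0 + 1) (L 0) = 0
        simp
      rw [this]
      exact isCompactOperator_zero
    | succ i ih =>
      have hi : IsM (M (i + 1) + 1) (L i) := (hLM i).mono (by
        have := hM (Nat.le_succ i)
        simp only [Nat.succ_eq_add_one] at this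
        omega)
      have h1 : S.kop (M (i + 1) + 1) (L (i + 1)) =
          S.kop (M (i + 1) + 1) (L (i + 1) - L i) + S.kop (M (i + 1) + 1) (L i) := by
        rw [← S.kop_add _ hi, sub_add_cancel]
        have := (hLM (i + 1)).add (hi.smul (-1))
        rwa [neg_one_smul, ← sub_eq_add_neg] at this
      have h2 : P (i + 1) - S.kop (M (i + 1) + 1) (L (i + 1)) =
          (P i - S.kop (M i + 1) (L i)) +
            (S.kop (M i + 1) (L i) - S.kop (M (i + 1) + 1) (L i)) := by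
        rw [h1, ← hP i]
        abel
      rw [h2]
      have h3 : IsCompactOperator (S.kop (M i + 1) (L i) - S.kop (M (i + 1) + 1) (L i)) :=
        S.kop_level (hLM i) (by
          have := hM (Nat.le_succ i)
          simp only [Nat.succ_eq_add_one] at this
          omega)
      exact ih.add h3
  obtain ⟨Θ, hΘ⟩ := At2_lim P 12 hPn
  have hAP : ∀ i, S.A (P i) = tr (M i) ∘L K ∘L tr (M i) := by
    intro i
    have e : P i = (P i - S.kop (M i + 1) (L i)) + S.kop (M i + 1) (L i) := by abel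
    rw [e, map_add, S.A_compact (hcomp i), zero_add, S.A_kop (hLM i)]
    exact conj_back _
  refine ⟨Θ, ?_, fun ε hε => ?_⟩
  · have h1 : Tendsto (fun i => S.A (P i)) atTop (𝓝 (S.A Θ)) := (S.A.continuous.tendsto _).comp hΘ
    have h2 : Tendsto (fun i => S.A (P i)) atTop (𝓝 K) := by
      refine tendsto_iff_norm_sub_tendsto_zero.2 ?_
      refine squeeze_zero (fun i => norm_nonneg _) (fun i => ?_)
        (tendsto_pow_atTop_nhds_zero_of_lt_one (r := (1 / 2 : ℝ)) (by norm_num) (by norm_num))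
      rw [hAP, norm_sub_rev]
      exact hKM i
    exact tendsto_nhds_unique h1 h2
  · have h1 : Tendsto (fun i => ‖P i - Θ‖) atTop (𝓝 0) := tendsto_iff_norm_sub_tendsto_zero.1 hΘ
    obtain ⟨i, hi⟩ := (h1.eventually (gt_mem_nhds hε)).exists
    refine ⟨M i + 1, L i, P i - S.kop (M i + 1) (L i), hLM i, hcomp i, ?_⟩
    have e : S.kop (M i + 1) (L i) + (P i - S.kop (M i + 1) (L i)) = P i := by abel
    rw [e]
    exact le_trans (le_of_eq (norm_sub_rev Θ (P i))) hi.le

end Sys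

end Pool.Agent.Helper64.Cal
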